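import Pool.Agent.H559.GU.Mx

set_option autoImplicit false

/-!
# The largest gap between the prime values of a polynomial has order `(log x) ^ (2 + o(1))` in the random sieve model

For every prime `q` a residue class `a q` modulo `q` is drawn uniformly and independently. The random primes are the
integers `v ≥ 3` which are, for all primes `q ≤ z v`, not in the class `0` modulo `q` if `q ≤ W v`, and not in the class
`a q` modulo `q` if `q > W v`. This is the model of Banks, Ford and Tao (*Large prime gaps and probabilistic models*) in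
which the primes up to the cut `W v` sieve out the class `0` as they do for the true primes. The sieving limit `z` is any
nondecreasing function for which `∏_{q ≤ z v} (1 - 1 / q)` is asymptotic to `1 / log v` (the choice `zBFT` of Banks, Ford and
Tao is one of them), and the cut `W` is any nondecreasing function between `log v · log log v` and all the powers
`(log v) ^ (1 + e)`, for example `wEx v = ⌊log v · (log (log v + 1)) ^ 2⌋`.

Let `f` be an irreducible nonconstant integer polynomial with positive leading coefficient and without a fixed prime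
divisor, `C f` its constant of Bateman and Horn, and `places` the set of the `m` for which `|f m|` is a random prime.
`maxGap S X` is the largest gap `m' - m` between consecutive elements `m < m'` of `S` with `m ≤ X`.

The theorem: almost surely, for EVERY such `f`
* for every `t > 2` all the windows `(n, n + (log n) ^ t]` with `n` large contain a place of `f`, and the largest gap up to
  `X` is at most `(log X) ^ t` for all large `X`;
* for every `lam < 1` the largest gap up to `X` is at least `lam · (deg f / C f) · log² X` for all large `X`;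
* consequently `log (maxGap X) / log log X → 2`.

For `f = X` this is the analogue of the question for the random primes themselves: the largest gap up to `X` is
`O((log X) ^ t)` for every `t > 2`, and not `o(log² X)`.
-/

open MeasureTheory ProbabilityTheory Filter Topology Polynomial

namespace Pool.Agent.Results.MP_7ba156_nt.GapExponentTwo

/-- `V m = ∏ (1 - 1 / q)` over the primes `q ≤ m` -/
noncomputable def V (m : ℕ) : ℝ := ∏ q ∈ (Finset.range (m + 1)).filter Nat.Prime, (1 - 1 / (q : ℝ))

/-- the classes `a q` are independent, and `a q` is uniform on `0, …, q - 1` for every prime `q` -/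
structure Model {Ω : Type} [MeasurableSpace Ω] (P : Measure Ω) (a : ℕ → Ω → ℕ) : Prop where
  measurable : ∀ q, Measurable (a q)
  independent : iIndepFun a P
  uniform : ∀ q, q.Prime → ∀ r < q, P.real {ω | a q ω = r} = 1 / q

/-- the sieving limit of Banks, Ford and Tao: the largest `m` with `∏_{q ≤ m} (1 - 1 / q)⁻¹ ≤ log n` -/
noncomputable def zBFT (n : ℕ) : ℕ := sSup {m : ℕ | (V m)⁻¹ ≤ Real.log n}

/-- the admissible sieving limits: the density of the random primes near `v` is asymptotic to `1 / log v` -/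
def Limit (z : ℕ → ℕ) : Prop := Monotone z ∧ Tendsto (fun v => V (z v) * Real.log v) atTop (𝓝 1)

/-- the admissible cuts -/
def Cut (W : ℕ → ℕ) : Prop :=
  Monotone W ∧ Tendsto (fun v : ℕ => (W v : ℝ) / (Real.log v * Real.log (Real.log v))) atTop atTop ∧
    ∀ e : ℝ, 0 < e → ∀ᶠ v : ℕ in atTop, (W v : ℝ) ≤ Real.log v ^ (1 + e)

/-- an example of a cut -/
noncomputable def wEx (v : ℕ) : ℕ := ⌊Real.log v * Real.log (Real.log v + 1) ^ 2⌋₊

/-- the set of the random primes of a sample -/
def R {Ω : Type} (z W : ℕ → ℕ) (a : ℕ → Ω → ℕ) (ω : Ω) : Set ℕ :=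
  {v | 3 ≤ v ∧ ∀ q ≤ z v, q.Prime → v % q ≠ if q ≤ W v then 0 else a q ω}

/-- `ω_f(p)`: the number of the zeros of `f` modulo `p` -/
def omega (f : ℤ[X]) (p : ℕ) : ℕ := ((Finset.range p).filter fun n : ℕ => (p : ℤ) ∣ f.eval (n : ℤ)).card

/-- the partial products of `C f` -/
noncomputable def partialC (f : ℤ[X]) (x : ℕ) : ℝ :=
  ∏ p ∈ (Finset.range (x + 1)).filter Nat.Prime, (1 - (omega f p : ℝ) / p) / (1 - 1 / (p : ℝ))

/-- the irreducible nonconstant polynomials with positive leading coefficients, without a fixed prime divisor -/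
def Good (f : ℤ[X]) : Prop :=
  Irreducible f ∧ 0 < f.natDegree ∧ 0 < f.leadingCoeff ∧ ∀ p : ℕ, p.Prime → omega f p < p

/-- the `m` for which `|f m|` is a random prime -/
def places (A : Set ℕ) (f : ℤ[X]) : Set ℕ := {m | (f.eval (m : ℤ)).natAbs ∈ A}

/-- the largest gap `m' - m` between consecutive elements `m < m'` of `S` with `m ≤ X` -/
noncomputable def maxGap (S : Set ℕ) (X : ℕ) : ℕ :=
  sSup {g | ∃ m ≤ X, m ∈ S ∧ m + g ∈ S ∧ 0 < g ∧ ∀ u, m < u → u < m + g → u ∉ S}

theorem result :
    (∃ (Ω : Type) (_ : MeasurableSpace Ω) (P : Measure Ω) (a : ℕ → Ω → ℕ), Model P a) ∧ Limit zBFT ∧ Cut wEx ∧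
    ∃ C : ℤ[X] → ℝ, (∀ f, Good f → Tendsto (partialC f) atTop (𝓝 (C f)) ∧ 0 < C f) ∧
      ∀ z : ℕ → ℕ, Limit z → ∀ W : ℕ → ℕ, Cut W →
        ∀ (Ω : Type) [MeasurableSpace Ω] (P : Measure Ω) (a : ℕ → Ω → ℕ), Model P a →
          ∀ᵐ ω ∂P, ∀ f : ℤ[X], Good f →
            (∀ t : ℝ, 2 < t →
              (∀ᶠ n : ℕ in atTop, ∃ m ∈ places (R z W a ω) f, n < m ∧ (m : ℝ) ≤ n + Real.log n ^ t) ∧
              ∀ᶠ X : ℕ in atTop, (maxGap (places (R z W a ω) f) X : ℝ) ≤ Real.log X ^ t) ∧
            (∀ lam : ℝ, lam < 1 → ∀ᶠ X : ℕ in atTop,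
              lam * (f.natDegree / C f) * Real.log X ^ 2 ≤ (maxGap (places (R z W a ω) f) X : ℝ)) ∧
            Tendsto (fun X : ℕ => Real.log (maxGap (places (R z W a ω) f) X) / Real.log (Real.log X)) atTop (𝓝 2) := by
  classical
  have hGP : ∀ f, Good f → ∀ g ∈ ({f} : Finset ℤ[X]), Pool.Agent.H559.PV.GP g := fun f hf g hg => by
    rw [Finset.mem_singleton] at hg
    rw [hg]
    exact ⟨hf.1, hf.2.1, hf.2.2.1⟩
  have hsys : ∀ f, Good f → Pool.Agent.H559.HY.Sys {f} := fun f hf => Pool.Agent.H559.PV.sys_of {f} (hGP f hf)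
  have hom : ∀ f p, Pool.Agent.H559.HY.omF {f} p = omega f p := fun f p => by
    unfold Pool.Agent.H559.HY.omF omega
    simp only [Finset.prod_singleton]
  have hCF : ∀ f, partialC f = Pool.Agent.H559.HY.CF {f} := fun f => by
    funext x
    unfold partialC Pool.Agent.H559.HY.CF
    refine Finset.prod_congr rfl fun p _ => ?_
    rw [hom, Finset.card_singleton, pow_one]
  refine ⟨?_, ⟨Pool.Agent.T2H32.BF.z0_mono, Pool.Agent.T2H32.BF.z0_lim⟩, ?_, ?_⟩
  · obtain ⟨Ω, i, P, a, h⟩ := Pool.Agent.T2H32.BF.exists_model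
    exact ⟨Ω, i, P, a, h.measurable, h.independent, h.uniform⟩
  · exact ⟨Pool.Agent.H559.GU.cut_WL.mono, Pool.Agent.H559.GU.cut_WL.low, Pool.Agent.H559.GU.cut_WL.up⟩
  · have hspec := fun (f : ℤ[X]) (hf : Good f) => (Pool.Agent.H559.PV.CF_conv' {f} (hsys f hf)).choose_spec
    refine ⟨fun f => if h : Good f then (Pool.Agent.H559.PV.CF_conv' {f} (hsys f h)).choose else 0, fun f hf => ?_, ?_⟩
    · simp only [hf, dite_true]
      rw [hCF]
      exact ⟨(hspec f hf).1, (hspec f hf).2 fun p hp => by rw [hom]; exact hf.2.2.2 p hp⟩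
    · intro z hz W hW Ω _ P a hmod
      have hWL : Pool.Agent.H559.GU.CutL W := ⟨hW.1, hW.2.1, hW.2.2⟩
      have h : Pool.Agent.T2H32.BF.Model P a := ⟨hmod.measurable, hmod.independent, hmod.uniform⟩
      filter_upwards [Pool.Agent.H559.GP.allF h z W hz (Pool.Agent.H559.GU.cut hWL),
        Pool.Agent.H559.GU.all_ae h z hz hWL] with ω hω1 hω2 f hf
      have e : R z W a ω = Pool.Agent.H559.HY.RS z W (fun p => a p ω) := rfl
      have hG := hGP f hf f (Finset.mem_singleton_self f)
      have hnf : Pool.Agent.H559.GU.NF f := by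
        intro p hp
        by_contra hcon
        push Not at hcon
        have h1 := hf.2.2.2 p hp
        unfold omega at h1
        rw [Finset.filter_true_of_mem fun n _ => hcon n, Finset.card_range] at h1
        omega
      have hwin := hω2 f hG hnf
      have hmem : ∀ m, m ∈ places (R z W a ω) f ↔
          Pool.Agent.H559.GU.G f m ∈ Pool.Agent.H559.HY.RS z W (fun p => a p ω) := fun m => Iff.rfl
      have hwin2 : ∀ t : ℝ, 2 < t → ∀ᶠ n : ℕ in atTop, ∃ m : ℕ, n < m ∧ (m : ℝ) ≤ n + Real.log n ^ t ∧
          m ∈ places (R z W a ω) f := fun t ht => hwin t ht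
      have hinf : ∀ N : ℕ, ∃ m : ℕ, N < m ∧ m ∈ places (R z W a ω) f := by
        intro N
        obtain ⟨n0, hn0⟩ := eventually_atTop.1 (hwin2 3 (by norm_num))
        obtain ⟨m, h1, _, h3⟩ := hn0 (max n0 N) (le_max_left _ _)
        exact ⟨m, lt_of_le_of_lt (le_max_right _ _) h1, h3⟩
      have hpl : ∀ m, Pool.Agent.H559.GP.Place (Pool.Agent.H559.HY.RS z W (fun p => a p ω)) {f} m ↔
          m ∈ places (R z W a ω) f := fun m => by
        unfold Pool.Agent.H559.GP.Place places
        simp only [Finset.mem_singleton, forall_eq, Set.mem_ofPred_eq]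
        exact Iff.rfl
      have hup : ∀ t : ℝ, 2 < t → ∀ᶠ X : ℕ in atTop, (maxGap (places (R z W a ω) f) X : ℝ) ≤ Real.log X ^ t :=
        fun t ht => Pool.Agent.H559.GU.mx_up (places (R z W a ω) f) hinf t (by linarith) (hwin2 t ht)
      simp only [hf, dite_true]
      have hC := (hspec f hf).1
      have hC0 := (hspec f hf).2 fun p hp => by rw [hom]; exact hf.2.2.2 p hp
      set S := (Pool.Agent.H559.PV.CF_conv' {f} (hsys f hf)).choose
      have hlow : ∀ lam : ℝ, lam < 1 → ∀ᶠ X : ℕ in atTop,
          lam * (f.natDegree / S) * Real.log X ^ 2 ≤ (maxGap (places (R z W a ω) f) X : ℝ) := by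
        intro lam hlam
        have h1 := Pool.Agent.H559.GP.consec _ {f} (fun N => by
          obtain ⟨m, h2, h3⟩ := hinf N
          exact ⟨m, h2, (hpl m).2 h3⟩) S hC0 (hω1 {f} (hGP f hf) (Finset.singleton_nonempty f) S hC hC0) lam hlam
        filter_upwards [h1] with X hX
        obtain ⟨m, m', h2, h3, h4, h5, h6, h7⟩ := hX
        have h8 := Pool.Agent.H559.GU.mx_low (places (R z W a ω) f) hinf X m m' h2 h3 ((hpl m).1 h4) ((hpl m').1 h5)
          (fun u hu hu' hcon => h6 u hu hu' ((hpl u).2 hcon))
        have h9 : ((m' - m : ℕ) : ℝ) = (m' : ℝ) - m := by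
          rw [Nat.cast_sub h2.le]
        have h10 : ((m' - m : ℕ) : ℝ) ≤ (maxGap (places (R z W a ω) f) X : ℝ) := by exact_mod_cast h8
        rw [h9] at h10
        refine le_trans (le_of_eq ?_) (h7.trans h10)
        unfold Pool.Agent.H559.PV.un
        rw [Finset.prod_singleton]
        ring
      refine ⟨fun t ht => ⟨?_, hup t ht⟩, hlow, ?_⟩
      · filter_upwards [hwin2 t ht] with n hn
        obtain ⟨m, h1, h2, h3⟩ := hn
        exact ⟨m, h3, h1, h2⟩
      · have hd : (0 : ℝ) < f.natDegree := by exact_mod_cast hf.2.1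
        exact Pool.Agent.H559.GU.mx_lim _ (1 / 2 * (f.natDegree / S)) (by positivity) hup (hlow (1 / 2) (by norm_num))

end Pool.Agent.Results.MP_7ba156_nt.GapExponentTwo
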