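import Pool.Agent.H440.GL.Gap
import Pool.Agent.H604.LD.FinalP
import Pool.Agent.H604.LD.App.A2

/-!
# The largest gaps between the primes `a² + X` over `F_q[X]`, `q` even

`K` is a finite field with an even number `q` of elements (`q = 2` is allowed).  The analogue of
the question for the primes of the form `a² + 1` is the question for the longest intervals
`{a : deg (a - A) < m}`, `A` monic of degree `d`, in which no value `a² + X` is irreducible.  By the
asymptotic formula (helper604) the number of the irreducible values in an interval of length `q ^ m`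
is `q ^ m / (2 d)` if `m` is near `d`, so a random model predicts that `q ^ m` is at most a power of
`d = log |a| / log q`.

We show that this is false by a power of `|a|`: for all `d` divisible by `4` (for all even `d` if `q` is a
square) *every* square `b²` of degree `d` is the centre of an interval with `q ^ m > |a| ^ (1 / 3)`
in which no `a² + X` is irreducible; in fact all these values are products of an even number of
distinct irreducible polynomials.  For the other even `d` all of them are products of an odd number.
On the other hand `q ^ m ≤ |a| ^ (1 - θ)` for some `θ > 0` and all large `d`.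

Proof.  The parity formula (helpers 524, 985, 604): `μ(a² + X)` is the character of
`c(a) + d (d - 1) / 2`, where `c(a)` is the coefficient of `X⁻¹` in `X a'³ / a`; near a square `a'` is
small and `c(a) = 0`.
-/

set_option autoImplicit false

namespace Pool.Agent.Results.MP_7ba156_nt.GapsOfLandauPrimes

open Polynomial
open Pool.Agent.H440.GL

/-- The number of the irreducible factors of `F`, counted with multiplicity. -/
noncomputable def numFactors {K : Type} [Field K] (F : K[X]) : ℕ :=
  Multiset.card (UniqueFactorizationMonoid.factors F)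

/-- The interval of length `q ^ m` around `A` contains no `a` for which `a² + X` is irreducible. -/
def IsGap {K : Type} [Field K] (A : K[X]) (m : ℕ) : Prop :=
  ∀ a : K[X], (a - A).degree < (m : WithBot ℕ) → ¬ Irreducible (a ^ 2 + X)

/-- Let `K` be a finite field with an even number `q` of elements.  (1) If `4 ∣ d`, `d > 0`, or if `d > 0`
is even and `q ≡ 1` modulo `3`, every square `b²` of a monic polynomial with `deg b² = d` is the centre
of an interval of length `q ^ m`, `m > d / 3`, which contains no `a` with `a² + X` irreducible; all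
these values are squarefree with an even number of irreducible factors.  (2) For the other even
`d > 0` all these values are squarefree with an odd number of irreducible factors.  (3) There is
`θ > 0` such that for all large `d` all intervals of length `q ^ m`, `m ≥ (1 - θ) d`, around monic
polynomials of degree `d` contain an `a` with `a² + X` irreducible. -/
theorem result (K : Type) [Field K] [Fintype K] (hK : Even (Fintype.card K)) :
    (∀ d : ℕ, 0 < d → Even d → (4 ∣ d ∨ Fintype.card K % 3 = 1) →
      ∀ b : K[X], b.Monic → (b ^ 2).natDegree = d →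
        IsGap (b ^ 2) (d / 3 + 1) ∧
        ∀ a : K[X], (a - b ^ 2).degree < ((d / 3 + 1 : ℕ) : WithBot ℕ) →
          Squarefree (a ^ 2 + X) ∧ Even (numFactors (a ^ 2 + X))) ∧
    (∀ d : ℕ, 0 < d → Even d → ¬ (4 ∣ d ∨ Fintype.card K % 3 = 1) →
      ∀ b : K[X], b.Monic → (b ^ 2).natDegree = d →
        ∀ a : K[X], (a - b ^ 2).degree < ((d / 3 + 1 : ℕ) : WithBot ℕ) →
          Squarefree (a ^ 2 + X) ∧ Odd (numFactors (a ^ 2 + X))) ∧
    ∃ θ : ℝ, 0 < θ ∧ ∃ d₀ : ℕ, ∀ d m : ℕ, d₀ ≤ d → (1 - θ) * d ≤ m →
      ∀ A : K[X], A.Monic → A.natDegree = d → ¬ IsGap A m := by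
  have hchar : ringChar K = 2 :=
    FiniteField.even_card_iff_char_two.mpr (Nat.even_iff.mp hK)
  have hCP : CharP K 2 := ringChar.eq_iff.mp hchar
  have hsmall : ∀ (d : ℕ) (b a : K[X]), (a - b ^ 2).degree < ((d / 3 + 1 : ℕ) : WithBot ℕ) →
      3 * (a - b ^ 2).natDegree ≤ d := by
    intro d b a h
    by_cases h0 : a - b ^ 2 = 0
    · rw [h0, natDegree_zero]; omega
    · have h1 := (natDegree_lt_iff_degree_lt h0).2 h
      omega
  have hev : ∀ d : ℕ, 0 < d → Even d → (4 ∣ d ∨ Fintype.card K % 3 = 1) →
      ∀ b : K[X], b.Monic → (b ^ 2).natDegree = d →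
        ∀ a : K[X], (a - b ^ 2).degree < ((d / 3 + 1 : ℕ) : WithBot ℕ) →
          Squarefree (a ^ 2 + X) ∧ Even (numFactors (a ^ 2 + X)) := by
    intro d hd hde hc b hb hbd a ha
    apply of_mob_one
    rw [mob_near hd hde hb (by rw [← hbd, hb.natDegree_pow]) (hsmall d b a ha), if_pos hc]
  refine ⟨?_, ?_, ?_⟩
  · intro d hd hde hc b hb hbd
    refine ⟨?_, fun a ha => hev d hd hde hc b hb hbd a ha⟩
    intro a ha hirr
    have h1 := (hev d hd hde hc b hb hbd a ha).2
    have h2 : numFactors (a ^ 2 + X) = 1 :=
      UniqueFactorizationMonoid.card_factors_of_irreducible hirr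
    rw [h2] at h1
    exact absurd h1 (by decide)
  · intro d hd hde hc b hb hbd a ha
    apply of_mob_neg_one
    rw [mob_near hd hde hb (by rw [← hbd, hb.natDegree_pow]) (hsmall d b a ha), if_neg hc]
  · obtain ⟨δ, θ, hδ, hθ, d₀, h⟩ := Pool.Agent.H604.LD.quadI Pool.Agent.H604.LD.s_bhqp K
    obtain ⟨q, hq⟩ : ∃ q : ℝ, q = Fintype.card K := ⟨_, rfl⟩
    have hq1 : (1 : ℝ) < q := by rw [hq]; exact_mod_cast Fintype.one_lt_card
    have hq0 : (0 : ℝ) < q := by linarith
    refine ⟨min θ δ / 2, by positivity, max d₀ 1, ?_⟩
    intro d m hd hm A hA hAd hgap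
    have hd1 : 1 ≤ d := le_trans (le_max_right _ _) hd
    have hdr : (0 : ℝ) < d := by exact_mod_cast hd1
    obtain ⟨l, hl⟩ : ∃ l, l = d - m := ⟨_, rfl⟩
    have hlr : (l : ℝ) ≤ min θ δ / 2 * d := by
      rcases Nat.le_total m d with h1 | h1
      · have h2 : (l : ℝ) = d - m := by rw [hl]; push_cast [h1]; ring
        rw [h2]; nlinarith
      · have h2 : l = 0 := by omega
        rw [h2]; push_cast; positivity
    have hlt : (l : ℝ) ≤ θ * d := by
      have : min θ δ ≤ θ := min_le_left _ _
      nlinarith
    have hld : (l : ℝ) < δ * d := by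
      have : min θ δ ≤ δ := min_le_right _ _
      nlinarith
    have hX : ¬ IsSquare (1 * X : K[X]) := by
      rintro ⟨z, hz⟩
      rw [one_mul] at hz
      have h1 : (X : K[X]).natDegree = (z * z).natDegree := by rw [← hz]
      rw [natDegree_X] at h1
      by_cases hz0 : z = 0
      · rw [hz0] at hz
        simp at hz
      · rw [natDegree_mul hz0 hz0] at h1
        omega
    have key := h 1 X A d l one_ne_zero isCoprime_one_left hX (by
      rw [natDegree_X, natDegree_one]; omega) hA hAd (le_trans (le_max_left _ _) hd) (by
      rw [natDegree_one, one_mul, derivative_X, natDegree_one]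
      simpa using hlt)
    have hset : {T : K[X] | (T - A).degree < ((d - l : ℕ) : WithBot ℕ) ∧
        Irreducible (1 * T ^ 2 + X)} = ∅ := by
      ext T
      simp only [Set.mem_ofPred_eq, Set.mem_empty_iff_false, iff_false, not_and, one_mul]
      intro hT
      refine hgap T (lt_of_lt_of_le hT ?_)
      have h1 : d - l ≤ m := by omega
      exact_mod_cast h1
    have hprod : ∏ᶠ P ∈ {P : K[X] | P.Monic ∧ Irreducible P ∧ P ∣ (1 : K[X])},
        (1 - 1 / (Fintype.card K : ℝ) ^ P.natDegree) = 1 := by
      have : {P : K[X] | P.Monic ∧ Irreducible P ∧ P ∣ (1 : K[X])} = ∅ := by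
        ext P
        simp only [Set.mem_ofPred_eq, Set.mem_empty_iff_false, iff_false, not_and]
        intro _ hP hP1
        exact hP.not_isUnit (isUnit_of_dvd_one hP1)
      rw [this, finprod_mem_empty]
    rw [hset, Set.ncard_empty, hprod, ← hq] at key
    simp only [Nat.cast_zero, mul_zero, div_one, zero_sub, abs_neg] at key
    rw [abs_of_pos (pow_pos hq0 _)] at key
    have hle : l ≤ d := by omega
    have h3 : q ^ (d - l) = q ^ ((d : ℝ) - l) := by
      rw [← Real.rpow_natCast, Nat.cast_sub hle]
    rw [h3] at key
    have h4 := (Real.rpow_le_rpow_left_iff hq1).1 key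
    nlinarith

end Pool.Agent.Results.MP_7ba156_nt.GapsOfLandauPrimes
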