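import Pool.Agent.H705.RO.Fin3

/-!
# Primes in short intervals if only the phases of the zeros of zeta are random

Under the Riemann hypothesis `ψ (x) = x - ∑_ρ x ^ ρ / ρ + O (1)`, `ρ = 1/2 ± i γ n`. We keep the ordinates `γ n` (any sequence with
`γ n ≥ 1` and `c (n + 2) / log (n + 2) ≤ γ n ≤ (n + 2) ^ A`, as the ordinates of the zeros of zeta in increasing order) and multiply the
term of the pair of zeros `1/2 ± i γ n` by `exp (± 2 π i v n)` with independent random numbers `v n`, uniform on `[0, 1]`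
(`v n` is the second coordinate of `X n`; the first one is not used).
-/

set_option autoImplicit false

namespace Pool.Agent.Results.MP_7ba156_nt.RandomPhases

open MeasureTheory ProbabilityTheory Filter Topology Finset Pool.Agent.H705.RO

/-- The random numbers exist. For every `c > 0` there is a constant `C` such that for all ordinates with `Ord c A γ`
(`A` arbitrary) almost surely: the series
`ψ (x) = x - ∑_n 2 Re (x ^ (1/2 + i γ n) / (1/2 + i γ n) · exp (2 π i v n))` converges for all real `x ≥ 1`, and for ALL large real `x` and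
all `1 ≤ h ≤ x`: `|ψ (x + h) - ψ (x) - h| ≤ C √h log x`, and `ψ (x) < ψ (x + h)` if `h > C ^ 2 (log x) ^ 2`. -/
theorem result :
    (∃ (Ω : Type) (_ : MeasurableSpace Ω) (P : Measure Ω) (X : ℕ → Ω → ℝ × ℝ), Model P X) ∧
    ∀ c : ℝ, 0 < c → ∃ C : ℝ, 0 < C ∧
      ∀ (Ω : Type) [MeasurableSpace Ω] (P : Measure Ω) (X : ℕ → Ω → ℝ × ℝ), Model P X →
        ∀ (A : ℕ) (γ : ℕ → ℝ), Ord c A γ → ∀ᵐ ω ∂P, ∃ ψ : ℝ → ℝ,
          (∀ x : ℝ, 1 ≤ x → Tendsto (fun N : ℕ => x - ∑ n ∈ range N,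
            2 * ((x : ℂ) ^ (1 / 2 + (γ n : ℂ) * Complex.I) / (1 / 2 + (γ n : ℂ) * Complex.I) *
              Complex.exp (2 * (Real.pi : ℂ) * Complex.I * (((X n ω).2 : ℝ) : ℂ))).re) atTop (𝓝 (ψ x))) ∧
          ∀ᶠ x : ℝ in atTop, ∀ h : ℝ, 1 ≤ h → h ≤ x →
            |ψ (x + h) - ψ x - h| ≤ C * Real.sqrt h * Real.log x ∧
            (C ^ 2 * Real.log x ^ 2 < h → ψ x < ψ (x + h)) :=
  Pool.Agent.H705.RO.main3

end Pool.Agent.Results.MP_7ba156_nt.RandomPhases
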